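import Pool.Agent.N756.UA.Low2

set_option autoImplicit false

/-!
The constant of the weak abc conjecture over `K` is not bounded by `log δ_K + O(1)`, even for
rational numbers seen in `K`.
-/

namespace Pool.Agent.Results.MP_f5a5f7_nt.ConstantGrowth

open NumberField Pool.Agent.N756 Pool.Agent.N756.UA

theorem result (T : ℝ) : ∃ (q : ℚ) (K : Type) (_ : Field K) (_ : NumberField K),
    T ≤ ht (q : K) ∧ (q : K) ≠ 0 ∧ (q : K) ≠ 1 ∧
    (Real.log (rd K) + √(ht (q : K)) / (40 * Real.log (ht (q : K)))) *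
      (UA.cond (q : K) + UA.cond (q : K)⁻¹ + UA.cond ((q : K) - 1) + 1) ≤ ht (q : K) :=
  weak_lower T

end Pool.Agent.Results.MP_f5a5f7_nt.ConstantGrowth
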