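import Mathlib
import Pool.Agent.N906.QP.AllL

/-!
# The weak abc conjecture over a number field: the violators of a given slope ordered by their conductor, up to the
# second order term

`K` is a number field of degree `d`, `N(x) = cond(x) + cond(1/x) + cond(x - 1)`. Let `1/3 < M < M' < 1/2`. The number `V(X)` of
the `x ∈ K`, `x ≠ 0, 1`, with `N(x) ≤ log X` and `M N(x) < h(x) ≤ M' N(x)` satisfies

  `log V(X) = d (1 - M) log X + (√(24 (3 M - 1) d) + o(1)) √(log X / log log X)`.
-/

set_option autoImplicit false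

namespace Pool.Agent.Results.MP_f5a5f7_nt.ExceptionsByConductor

open NumberField IsDedekindDomain Filter Topology

section

variable {K : Type} [Field K] [NumberField K]

/-- the absolute logarithmic Weil height (`Height.logHeight₁` is relative to `K`) -/
noncomputable def height (x : K) : ℝ := Height.logHeight₁ x / (Module.finrank ℚ K : ℝ)

/-- the conductor `cond(x)`: the sum of `log N(v) / [K : ℚ]` over the finite places `v` with `|x|_v < 1` -/
noncomputable def cond (x : K) : ℝ :=
  (∑ᶠ (v : HeightOneSpectrum (𝓞 K)) (_ : FinitePlace.mk v x < 1),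
    Real.log (Ideal.absNorm v.asIdeal : ℝ)) / (Module.finrank ℚ K : ℝ)

/-- `N(x) = cond(x) + cond(1/x) + cond(x - 1)` -/
noncomputable def total (x : K) : ℝ := cond x + cond x⁻¹ + cond (x - 1)

end

/-- the `x ∈ K`, `x ≠ 0, 1`, with `N(x) ≤ log X` and `M N(x) < h(x) ≤ M' N(x)` -/
def Violators (K : Type) [Field K] [NumberField K] (M M' X : ℝ) : Set K :=
  {x | x ≠ 0 ∧ x ≠ 1 ∧ total x ≤ Real.log X ∧ M * total x < height x ∧ height x ≤ M' * total x}

/-- **Theorem.** Let `K` be a number field of degree `d` and `1/3 < M < M' < 1/2`. The number `V(X)` of the `x ∈ K`,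
`x ≠ 0, 1`, with `N(x) ≤ log X` and `M N(x) < h(x) ≤ M' N(x)` is finite, and
`(log V(X) - d (1 - M) log X) / √(log X / log log X)` tends to `√(24 (3 M - 1) d)`. -/
theorem result : ∀ (K : Type) [Field K] [NumberField K] (M M' : ℝ), 1 / 3 < M → M < M' → M' < 1 / 2 →
    (∀ X : ℝ, (Violators K M M' X).Finite) ∧
    Tendsto (fun X : ℝ => (Real.log ((Violators K M M' X).ncard : ℝ) -
        Module.finrank ℚ K * (1 - M) * Real.log X) / √(Real.log X / Real.log (Real.log X))) atTop
      (𝓝 √(24 * (3 * M - 1) * Module.finrank ℚ K)) := by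
  intro K _ _ M M' h1 h2 h3
  exact Pool.Agent.N906.QP.Aff.xr_limit K M M' h1 h2 h3

end Pool.Agent.Results.MP_f5a5f7_nt.ExceptionsByConductor
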