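import Pool.Agent.N671.DA.Win
import Pool.Agent.Results.MP_f5a5f7_nt.StarshapedWeakAbc

/-!
# The weak abc conjecture near functions of the denominators of good approximations, over all number fields

Let `α_1, …, α_m` be real numbers. We consider the natural numbers `q` with `‖q α_j - β_j‖ ≤ c q^(-τ)` for all `j`, `‖x‖` the
distance to the nearest integer; for `β = 0`, `c = 1`, `τ = 1 / m` these include the denominators of all best simultaneous
approximations (the denominators of the convergents for `m = 1`). They form a very sparse sequence, with gaps growing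
exponentially for almost all `α` if `τ = 1 / m`. Let `G` be a function with steps bounded below by a positive constant and
growth at most `v^d`, for example `α v^d`, and `0 ≤ θ ≤ 1`. We show: for all `α` in `ℝ^m` outside a set `E` of Hausdorff
dimension at most `(m + θ) / (1 + τ)`, for every number field `K` (of degree `D`, contained in `ℂ`) and all `c` there is `κ`
with `h(x) ≤ κ (cond(x) + cond(1/x) + cond(x - 1) + 1)` for ALL `x ∈ K`, `x ≠ 0, 1`, with `|exp (D h(x)) - G q| ≤ q^θ` for such a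
`q`. For given `κ > 1` one has `h(x) < κ (cond(x) + cond(1/x) + cond(x - 1)) - b`, `b` any constant, for all these `x` and all
large `q`, for all `α` outside a set of dimension at most `(m + d min (4 / (7 κ)) (20 / 37) + θ) / (1 + τ)`. The exceptional
sets do not depend on `K`, `b` and `c`. For `τ = 1 / m` the first bound is less than `m` if `θ < 1`, the second one if
`d min (4 / (7 κ)) (20 / 37) + θ < 1`; and so the statements hold for almost all `α`.

Proof. The `q` such that an exceptional `x` has `exp (D h(x))` near `G q` form a set with `O(X^(d s + θ + ε))` elements up to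
`X`, `s = min (4 / (7 κ)) (20 / 37)`, by the starting theorem `FewExceptions` of this problem; and the `α` with
`‖q α_j - β_j‖ ≤ c q^(-τ)` for all `j` and infinitely many `q` of such a set are covered by few small cubes. There are
countably many subfields of `ℂ` of finite degree.
-/

set_option autoImplicit false

namespace Pool.Agent.Results.MP_f5a5f7_nt.SimultaneousApproximations

open NumberField Filter Topology
open Pool.Agent.N671.DA (Solves Expanding expanding_pow approx_windows)
open FewExceptions (height)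
open StarshapedWeakAbc (Exc cond3 cond3_nonneg)

/-- the conductor of the problem -/
noncomputable abbrev Cond {K : Type} [Field K] [NumberField K] (x : K) : ℝ := FewExceptions.cond x

/-- the height relative to the field, `exp (D h(x))` -/
noncomputable def HK {K : Type} [Field K] [NumberField K] (x : K) : ℝ :=
  Real.exp ((Module.finrank ℚ K : ℝ) * height x)

/-- there are countably many subfields of the complex numbers of finite degree -/
lemma countable_fields : Countable {K : IntermediateField ℚ ℂ // NumberField K} := by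
  have h1 : ({K : IntermediateField ℚ ℂ | NumberField K}).Countable := by
    have h2 : ({x : ℂ | IsAlgebraic ℚ x}).Countable := Algebraic.countable ℚ ℂ
    refine (h2.image (fun x => IntermediateField.adjoin ℚ {x})).mono ?_
    intro K hK
    have hK' : NumberField K := hK
    obtain ⟨a, ha⟩ := Field.exists_primitive_element ℚ K
    refine ⟨(a : ℂ), ?_, ?_⟩
    · have h3 : IsAlgebraic ℚ a := Algebra.IsAlgebraic.isAlgebraic a
      exact h3.algebraMap
    · simp only
      rw [← IntermediateField.lift_adjoin_simple]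
      refine (congrArg IntermediateField.lift ?_).trans (IntermediateField.lift_top _ K)
      exact ha
  exact h1.to_subtype

/-- all fields at once -/
lemma win {G : ℕ → ℝ} {d : ℝ} (hG : Expanding G d) {θ κ : ℝ} (hθ : 0 ≤ θ) (hθ1 : θ ≤ 1) (hκ : 1 < κ) {m : ℕ}
    (β : Fin m → ℝ) {τ : ℝ} (hτ : 0 < τ) :
    ∃ E : Set (Fin m → ℝ), dimH E ≤ ENNReal.ofReal ((m + (d * min (4 / (7 * κ)) (20 / 37) + θ)) / (1 + τ)) ∧
      ∀ α, α ∉ E → ∀ (K : IntermediateField ℚ ℂ) [NumberField K] (b c : ℝ), ∃ Q : ℕ, ∀ q : ℕ, Q ≤ q →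
        Solves α β q (c * (q : ℝ) ^ (-τ)) → ∀ x : K, x ≠ 0 → x ≠ 1 → |HK x - G q| ≤ (q : ℝ) ^ θ →
          height x < κ * (Cond x + Cond x⁻¹ + Cond (x - 1)) - b := by
  have hκ0 : 0 < κ := by linarith
  have hcount := countable_fields
  have hall : ∀ i : {K : IntermediateField ℚ ℂ // NumberField K} × ℕ, ∃ E : Set (Fin m → ℝ),
      dimH E ≤ ENNReal.ofReal ((m + (d * min (4 / (7 * κ)) (20 / 37) + θ)) / (1 + τ)) ∧
      ∀ α, α ∉ E → ∀ c : ℝ, ∃ Q : ℕ, ∀ q : ℕ, Q ≤ q → Solves α β q (c * (q : ℝ) ^ (-τ)) →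
        ∀ (h : NumberField i.1.1), ∀ x ∈ Exc i.1.1 κ (i.2 : ℝ), ¬ |HK x - G q| ≤ (q : ℝ) ^ θ := by
    rintro ⟨⟨K, hK⟩, j⟩
    obtain ⟨E, h1, h2⟩ := approx_windows (Exc K κ (j : ℝ)) (fun x => HK x) hG
      (s := min (4 / (7 * κ)) (20 / 37)) (le_min (by positivity) (by norm_num)) hθ hθ1
      (StarshapedWeakAbc.count K κ (j : ℝ) hκ) β hτ
    refine ⟨E, h1, fun α hα c => ?_⟩
    obtain ⟨Q, hQ⟩ := h2 α hα c
    exact ⟨Q, fun q hq hs _ x hx => hQ q hq hs x hx⟩
  choose A hA1 hA2 using hall
  refine ⟨⋃ i, A i, ?_, fun α hα K hK b c => ?_⟩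
  · rw [dimH_iUnion]
    exact iSup_le hA1
  · obtain ⟨j, hj⟩ := exists_nat_ge b
    obtain ⟨Q, hQ⟩ := hA2 (⟨K, hK⟩, j) α (fun h => hα (Set.mem_iUnion.2 ⟨_, h⟩)) c
    refine ⟨Q, fun q hq hs x hx0 hx1 hw => ?_⟩
    by_contra hcon
    push Not at hcon
    refine hQ q hq hs hK x ⟨hx0, hx1, ?_⟩ hw
    show κ * (Cond x + Cond x⁻¹ + Cond (x - 1)) ≤ height x + (j : ℝ)
    linarith

/-- **The weak abc conjecture near the denominators of good approximations.** Let `G` have steps `≥ a > 0` and growth at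
most `v^d`. Let `0 ≤ θ ≤ 1`, `β` in `ℝ^m` and `τ > 0`.
(1) There is a set `E` in `ℝ^m` of Hausdorff dimension at most `(m + θ) / (1 + τ)` such that for each `α` outside `E`, for every
subfield `K` of `ℂ` of finite degree `D` and every `c` there is `κ > 1` such that for all `q` with `‖q α_j - β_j‖ ≤ c q^(-τ)` for
all `j`, ALL `x ∈ K`, `x ≠ 0, 1`, with `|exp (D h(x)) - G q| ≤ q^θ` satisfy
`h(x) ≤ κ (cond(x) + cond(1/x) + cond(x - 1) + 1)`.
(2) For every `κ > 1` there is a set `E` of Hausdorff dimension at most `(m + d min (4 / (7 κ)) (20 / 37) + θ) / (1 + τ)` such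
that for each `α` outside `E`, for every such `K` and all `b`, `c`, for all large `q` with `‖q α_j - β_j‖ ≤ c q^(-τ)` for all `j`, all
these `x` satisfy `h(x) < κ (cond(x) + cond(1/x) + cond(x - 1)) - b`.
The functions `α v^d` with `α > 0`, `d ≥ 1` are examples of `G`. -/
theorem result :
    (∀ (G : ℕ → ℝ) (d : ℝ), Expanding G d → ∀ θ : ℝ, 0 ≤ θ → θ ≤ 1 → ∀ (m : ℕ) (β : Fin m → ℝ) (τ : ℝ), 0 < τ →
      (∃ E : Set (Fin m → ℝ), dimH E ≤ ENNReal.ofReal ((m + θ) / (1 + τ)) ∧
        ∀ α, α ∉ E → ∀ (K : IntermediateField ℚ ℂ) [NumberField K] (c : ℝ), ∃ κ : ℝ, 1 < κ ∧ ∀ q : ℕ,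
          Solves α β q (c * (q : ℝ) ^ (-τ)) → ∀ x : K, x ≠ 0 → x ≠ 1 → |HK x - G q| ≤ (q : ℝ) ^ θ →
            height x ≤ κ * (Cond x + Cond x⁻¹ + Cond (x - 1) + 1)) ∧
      ∀ κ : ℝ, 1 < κ → ∃ E : Set (Fin m → ℝ),
        dimH E ≤ ENNReal.ofReal ((m + (d * min (4 / (7 * κ)) (20 / 37) + θ)) / (1 + τ)) ∧
        ∀ α, α ∉ E → ∀ (K : IntermediateField ℚ ℂ) [NumberField K] (b c : ℝ), ∃ Q : ℕ, ∀ q : ℕ, Q ≤ q →
          Solves α β q (c * (q : ℝ) ^ (-τ)) → ∀ x : K, x ≠ 0 → x ≠ 1 → |HK x - G q| ≤ (q : ℝ) ^ θ →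
            height x < κ * (Cond x + Cond x⁻¹ + Cond (x - 1)) - b) ∧
    ∀ α d : ℝ, 0 < α → 1 ≤ d → Expanding (fun v => α * (v : ℝ) ^ d) d := by
  refine ⟨fun G d hG θ hθ hθ1 m β τ hτ => ⟨?_, fun κ hκ => win hG hθ hθ1 hκ β hτ⟩,
    fun α d hα hd => expanding_pow hα hd⟩
  have hall : ∀ i : ℕ, (1 : ℝ) < (i : ℝ) + 2 := fun i => by
    have : (0 : ℝ) ≤ i := Nat.cast_nonneg i
    linarith
  choose A hA1 hA2 using fun i : ℕ => win hG hθ hθ1 (hall i) β hτ
  have hd1 := hG.one_le
  refine ⟨⋂ i, A i, ?_, fun α hα K hK c => ?_⟩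
  · have h1 : ∀ i : ℕ, dimH (⋂ i, A i) ≤
        ENNReal.ofReal ((m + (d * (4 / 7 * (1 / ((i : ℝ) + 1))) + θ)) / (1 + τ)) := by
      intro i
      refine (dimH_mono (Set.iInter_subset A i)).trans ((hA1 i).trans (ENNReal.ofReal_le_ofReal ?_))
      have hi : (0 : ℝ) ≤ i := Nat.cast_nonneg i
      have h2 : min (4 / (7 * ((i : ℝ) + 2))) (20 / 37) ≤ 4 / 7 * (1 / ((i : ℝ) + 1)) := by
        refine (min_le_left _ _).trans ?_
        rw [div_mul_div_comm, mul_one]
        exact div_le_div_of_nonneg_left (by norm_num) (by positivity) (by linarith)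
      have h3 := mul_le_mul_of_nonneg_left h2 (by linarith : (0 : ℝ) ≤ d)
      exact div_le_div_of_nonneg_right (by linarith) (by linarith)
    refine ge_of_tendsto' (x := (atTop : Filter ℕ)) ?_ h1
    apply ENNReal.tendsto_ofReal
    have h2 : Tendsto (fun i : ℕ => 1 / ((i : ℝ) + 1)) atTop (𝓝 0) := tendsto_one_div_add_atTop_nhds_zero_nat
    have h3 := ((((h2.const_mul (4 / 7)).const_mul d).add_const θ).const_add (m : ℝ)).div_const (1 + τ)
    rw [mul_zero, mul_zero, zero_add] at h3
    exact h3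
  · obtain ⟨i, hi⟩ : ∃ i, α ∉ A i := by
      by_contra hcon
      push Not at hcon
      exact hα (Set.mem_iInter.2 hcon)
    obtain ⟨Q, hQ⟩ := hA2 i α hi K 0 c
    have hi0 : (0 : ℝ) ≤ i := Nat.cast_nonneg i
    set B : ℝ := ∑ q ∈ Finset.range Q, |G q + (q : ℝ) ^ θ| with hB
    have hB0 : 0 ≤ B := Finset.sum_nonneg fun q _ => abs_nonneg _
    refine ⟨(i : ℝ) + 2 + B, by linarith, fun q hs x hx0 hx1 hw => ?_⟩
    have hc3 : 0 ≤ Cond x + Cond x⁻¹ + Cond (x - 1) := cond3_nonneg x
    rcases le_or_gt Q q with hq | hq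
    · have h1 := hQ q hq hs x hx0 hx1 hw
      nlinarith
    · have h1 : HK x ≤ B := by
        have h2 : HK x ≤ |G q + (q : ℝ) ^ θ| := by
          have h3 := (abs_le.mp hw).2
          exact le_trans (by linarith) (le_abs_self _)
        refine h2.trans ?_
        exact Finset.single_le_sum (f := fun q : ℕ => |G q + (q : ℝ) ^ θ|)
          (fun q _ => abs_nonneg _) (Finset.mem_range.mpr hq)
      have hD : (1 : ℝ) ≤ Module.finrank ℚ K := by exact_mod_cast Module.finrank_pos
      have h4 : height x ≤ B := by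
        rcases le_or_gt (height x) 0 with h0 | h0
        · exact h0.trans hB0
        · have h5 : (Module.finrank ℚ K : ℝ) * height x + 1 ≤ HK x := Real.add_one_le_exp _
          nlinarith
      nlinarith

end Pool.Agent.Results.MP_f5a5f7_nt.SimultaneousApproximations
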